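import Pool.Agent.H3.PS.Stm

set_option autoImplicit false

namespace Pool.Agent.H28.PS

open MeasureTheory ProbabilityTheory Filter Topology
open Pool.Agent.Helper581.Sand Pool.Agent.W5h98.Pol
open Pool.Agent.H3.PS

/-- The neighbour number `j` of `z`. -/
def nb {d : ℕ} (z : V d) (j : Fin d × Bool) : V d := mv z j.1 (if j.2 then 1 else -1)

theorem nb_inj {d : ℕ} (z : V d) : Function.Injective (nb z) := by
  rintro ⟨i, b⟩ ⟨i', b'⟩ h
  unfold nb at h
  simp only at h
  have hii : i = i' := by
    by_contra hne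
    have h1 := congrFun h i
    rw [mv_same, mv_ne _ _ hne] at h1
    cases b <;> simp at h1
  subst hii
  have h1 := congrFun h i
  rw [mv_same, mv_same] at h1
  have hbb : b = b' := by
    cases b <;> cases b' <;> simp at h1 ⊢
  rw [hbb]

theorem st_one {d : ℕ} (r : ℕ) (ω : Om d) (x : V d) : st r ω x = 1 ↔ ω (x, 0) = true := by
  unfold st
  split_ifs with h1 h2
  · simp [h1]
  · simp [h1]
  · simp [h1]

theorem nc_card {d : ℕ} (r : ℕ) (ω : Om d) (z : V d) :
    nc (st r ω) z = (Finset.univ.filter (fun j : Fin d × Bool => ω (nb z j, 0) = true)).card := by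
  rw [Finset.card_filter, ← Finset.univ_product_univ, Finset.sum_product]
  unfold nc
  apply Finset.sum_congr rfl
  intro i _
  rw [Fintype.sum_bool]
  simp only [nb, st_one]
  simp

theorem cyl {d : ℕ} (q ρ : Set.Icc (0 : ℝ) 1) (z : V d) (S : Finset (Fin d × Bool)) :
    (Pr d (law q ρ)).real {ω | ∀ j ∈ S, ω (nb z j, 0) = true} = (q : ℝ) ^ S.card := by
  classical
  have hinj : Function.Injective (fun j : Fin d × Bool => ((nb z j, 0) : V d × ℕ)) := by
    intro a b h
    exact nb_inj z (congrArg Prod.fst h)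
  have h1 : {ω : Om d | ∀ j ∈ S, ω (nb z j, 0) = true} =
      Set.pi (S.image (fun j : Fin d × Bool => ((nb z j, 0) : V d × ℕ)) : Finset (V d × ℕ))
        (fun _ => ({true} : Set Bool)) := by
    ext ω
    constructor
    · intro h t ht
      rw [Finset.mem_coe, Finset.mem_image] at ht
      obtain ⟨j, hj, rfl⟩ := ht
      exact h j hj
    · intro h j hj
      exact h (nb z j, 0) (Finset.mem_coe.mpr (Finset.mem_image_of_mem _ hj))
  rw [h1]
  unfold Pr
  rw [measureReal_def, Measure.infinitePi_pi]
  · rw [Finset.prod_image (fun a _ b _ h => hinj h)]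
    simp only [law_zero, bern_true, Finset.prod_const, ENNReal.toReal_pow]
    rw [ENNReal.toReal_ofReal q.2.1]
  · intro i _
    exact MeasurableSet.of_discrete

theorem BP : S_BP := by
  classical
  intro d _hd q ρ r s z
  have hsub : {ω : Om d | bad s (st r ω) z} ⊆
      ⋃ S ∈ (Finset.univ : Finset (Fin d × Bool)).powersetCard (s + 1),
        {ω : Om d | ∀ j ∈ S, ω (nb z j, 0) = true} := by
    intro ω hω
    have h1 : s + 1 ≤ (Finset.univ.filter (fun j : Fin d × Bool => ω (nb z j, 0) = true)).card := by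
      rw [← nc_card r ω z]
      exact hω
    obtain ⟨S, hS, hc⟩ := Finset.exists_subset_card_eq h1
    refine Set.mem_biUnion (x := S) ?_ ?_
    · rw [Finset.mem_coe, Finset.mem_powersetCard]
      exact ⟨Finset.subset_univ _, hc⟩
    · intro j hj
      exact (Finset.mem_filter.mp (hS hj)).2
  calc (Pr d (law q ρ)).real {ω | bad s (st r ω) z}
      ≤ (Pr d (law q ρ)).real (⋃ S ∈ (Finset.univ : Finset (Fin d × Bool)).powersetCard (s + 1),
        {ω : Om d | ∀ j ∈ S, ω (nb z j, 0) = true}) := measureReal_mono hsub (measure_ne_top _ _)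
    _ ≤ ∑ S ∈ (Finset.univ : Finset (Fin d × Bool)).powersetCard (s + 1),
        (Pr d (law q ρ)).real {ω : Om d | ∀ j ∈ S, ω (nb z j, 0) = true} :=
        measureReal_biUnion_finset_le _ _
    _ = ∑ _S ∈ (Finset.univ : Finset (Fin d × Bool)).powersetCard (s + 1), (q : ℝ) ^ (s + 1) := by
        apply Finset.sum_congr rfl
        intro S hS
        rw [cyl, (Finset.mem_powersetCard.mp hS).2]
    _ = ((Finset.univ : Finset (Fin d × Bool)).powersetCard (s + 1)).card * (q : ℝ) ^ (s + 1) := by
        rw [Finset.sum_const, nsmul_eq_mul]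
    _ ≤ 4 ^ d * (q : ℝ) ^ (s + 1) := by
        apply mul_le_mul_of_nonneg_right _ (pow_nonneg q.2.1 _)
        rw [Finset.card_powersetCard, Finset.card_univ, Fintype.card_prod, Fintype.card_fin,
          Fintype.card_bool]
        have h2 : (d * 2).choose (s + 1) ≤ 2 ^ (d * 2) := Nat.choose_le_two_pow _ _
        have h3 : (2 : ℕ) ^ (d * 2) = 4 ^ d := by
          rw [mul_comm, pow_mul]
          norm_num
        rw [h3] at h2
        exact_mod_cast h2

end Pool.Agent.H28.PS
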