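import Pool.Agent.H3.PS.Stm

set_option autoImplicit false

namespace Pool.Agent.H28.PS

open MeasureTheory ProbabilityTheory Filter Topology
open Pool.Agent.Helper581.Sand Pool.Agent.W5h98.Pol
open Pool.Agent.H3.PS

theorem MES_nc (d : ℕ) (x : V d) : Measurable (fun η : V d → Fin 3 => nc η x) := by
  unfold nc
  apply Finset.measurable_sum
  intro i _
  have h : ∀ y : V d, Measurable (fun η : V d → Fin 3 => if η y = 1 then 1 else 0 : _ → ℕ) := by
    intro y
    apply Measurable.ite
    · have hy : Measurable (fun η : V d → Fin 3 => η y) := measurable_pi_apply y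
      exact hy (measurableSet_singleton (1 : Fin 3))
    · exact measurable_const
    · exact measurable_const
  exact (h _).add (h _)

theorem MES_bad (d s : ℕ) (x : V d) : MeasurableSet {η : V d → Fin 3 | ¬ bad s η x} := by
  apply MeasurableSet.compl
  exact MES_nc d x (measurableSet_Ioi)

theorem MES : S_MES := by
  intro d s κ t
  induction t with
  | zero =>
    intro x
    have h : {η : V d → Fin 3 | grow s κ η 0 x} =
        {η : V d → Fin 3 | ¬ bad s η x} ∩ {η : V d → Fin 3 | η x ≠ 2} := rfl
    rw [h]
    refine (MES_bad d s x).inter ?_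
    have hx : Measurable (fun η : V d → Fin 3 => η x) := measurable_pi_apply x
    exact (hx (measurableSet_singleton (2 : Fin 3))).compl
  | succ t ih =>
    intro x
    have h : {η : V d → Fin 3 | grow s κ η (t + 1) x} =
        {η : V d → Fin 3 | grow s κ η t x} ∪ ({η : V d → Fin 3 | ¬ bad s η x} ∩
          ⋃ A ∈ {A : Finset (Fin d) | κ ≤ A.card}, ⋂ i ∈ A,
            ({η : V d → Fin 3 | grow s κ η t (mv x i 1)} ∪
              {η : V d → Fin 3 | grow s κ η t (mv x i (-1))})) := by
      ext η
      simp only [Set.mem_ofPred_eq, Set.mem_union, Set.mem_inter_iff, Set.mem_iUnion,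
        Set.mem_iInter, grow, exists_prop]
    rw [h]
    refine (ih x).union ((MES_bad d s x).inter ?_)
    refine MeasurableSet.biUnion (Set.to_countable _) ?_
    intro A _
    refine Finset.measurableSet_biInter A ?_
    intro i _
    exact (ih _).union (ih _)

end Pool.Agent.H28.PS
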